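import Pool.Agent.H207.BT.Stm4

/-!
# BT RT1: roots in one variable (for helper207, MP_8f2e1c_an)
-/

set_option autoImplicit false

open Topology Filter Metric Set

namespace Pool.Agent.H287.BT207

theorem t_RT1 : Pool.Agent.H207.BT.S_RT1 := by
  intro G ζ₀ n hn hG ⟨h, hh, hh0, hGh⟩
  have hn0 : n ≠ 0 := by omega
  obtain ⟨a, ha⟩ := IsAlgClosed.exists_pow_nat_eq (h ζ₀) (n := n) (by omega)
  have ha0 : a ≠ 0 := by
    rintro rfl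
    rw [zero_pow hn0] at ha
    exact hh0 ha.symm
  obtain ⟨k, hk⟩ : ∃ k : ℂ → ℂ, k = fun u => a * (h u / h ζ₀) ^ ((n : ℂ)⁻¹) := ⟨_, rfl⟩
  have hk1 : k ζ₀ = a := by simp [hk, div_self hh0]
  have hka : AnalyticAt ℂ k ζ₀ := by
    rw [hk]
    apply AnalyticAt.mul analyticAt_const
    apply AnalyticAt.cpow (hh.div_const) analyticAt_const
    rw [div_self hh0]
    exact Complex.one_mem_slitPlane
  have hkp : ∀ u, k u ^ n = h u := by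
    intro u
    rw [hk]
    beta_reduce
    rw [mul_pow, ha, Complex.cpow_nat_inv_pow _ hn0]
    field_simp
  obtain ⟨Φ, hΦ⟩ : ∃ Φ : ℂ → ℂ, Φ = fun u => (u - ζ₀) * k u := ⟨_, rfl⟩
  have hΦd : HasStrictDerivAt Φ a ζ₀ := by
    have h1 : HasStrictDerivAt (fun u : ℂ => u - ζ₀) 1 ζ₀ := (hasStrictDerivAt_id ζ₀).sub_const ζ₀
    have h2 := hka.hasStrictDerivAt
    have h3 := h1.mul h2
    have h4 : (1 : ℂ) * k ζ₀ + (ζ₀ - ζ₀) * deriv k ζ₀ = a := by rw [hk1]; ring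
    rw [hΦ, ← h4]
    exact h3
  have hΦ0 : Φ ζ₀ = 0 := by simp [hΦ]
  have hpa : 0 < ‖a‖ := norm_pos_iff.2 ha0
  have hest : ∀ᶠ p : ℂ × ℂ in 𝓝 ζ₀ ×ˢ 𝓝 ζ₀,
      ‖Φ p.1 - Φ p.2 - a * (p.1 - p.2)‖ ≤ ‖a‖ / 2 * ‖p.1 - p.2‖ := by
    have h1 := hΦd.hasStrictFDerivAt.isLittleO.def (c := ‖a‖ / 2) (by positivity)
    rw [nhds_prod_eq] at h1
    filter_upwards [h1] with p hp
    refine le_trans (le_of_eq ?_) hp
    congr 2
    simp [mul_comm]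
  obtain ⟨U, hU, hest0⟩ := Filter.mem_prod_self_iff.1 hest
  have hest : ∀ u ∈ U, ∀ v ∈ U, ‖Φ u - Φ v - a * (u - v)‖ ≤ ‖a‖ / 2 * ‖u - v‖ :=
    fun u hu v hv => hest0 (Set.mk_mem_prod hu hv)
  obtain ⟨V, hV⟩ : ∃ V : Set ℂ, V = U ∩ {u | G u = (u - ζ₀) ^ n * h u} := ⟨_, rfl⟩
  have hVn : V ∈ 𝓝 ζ₀ := by
    rw [hV]
    exact inter_mem hU hGh
  have hVi : Φ '' V ∈ 𝓝 (0 : ℂ) := by
    have h1 := hΦd.map_nhds_eq ha0
    rw [hΦ0] at h1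
    rw [← h1]
    exact image_mem_map hVn
  obtain ⟨δ, hδ, hball⟩ := Metric.mem_nhds_iff.1 hVi
  have hζV : ζ₀ ∈ U := mem_of_mem_nhds hU
  have hupper : ∀ u ∈ U, ∀ v ∈ U, ‖Φ u - Φ v‖ ≤ 3 / 2 * ‖a‖ * ‖u - v‖ := by
    intro u hu v hv
    have h1 := hest u hu v hv
    have h2 : ‖Φ u - Φ v‖ ≤ ‖Φ u - Φ v - a * (u - v)‖ + ‖a * (u - v)‖ := by
      have := norm_add_le (Φ u - Φ v - a * (u - v)) (a * (u - v))
      rwa [sub_add_cancel] at this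
    rw [norm_mul] at h2
    linarith
  have hlower : ∀ u ∈ U, ∀ v ∈ U, ‖a‖ / 2 * ‖u - v‖ ≤ ‖Φ u - Φ v‖ := by
    intro u hu v hv
    have h1 := hest u hu v hv
    have h2 : ‖a * (u - v)‖ ≤ ‖Φ u - Φ v‖ + ‖Φ u - Φ v - a * (u - v)‖ := by
      have := norm_sub_le (Φ u - Φ v) (Φ u - Φ v - a * (u - v))
      rwa [sub_sub_cancel] at this
    rw [norm_mul] at h2
    linarith
  -- the root of unity
  obtain ⟨w, hw⟩ : ∃ w : ℂ, w = Complex.exp (2 * Real.pi * Complex.I / n) := ⟨_, rfl⟩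
  have hwp : IsPrimitiveRoot w n := by
    rw [hw]
    exact Complex.isPrimitiveRoot_exp n hn0
  have hw1 : w ≠ 1 := hwp.ne_one (by omega)
  have hwn : w ^ n = 1 := hwp.pow_eq_one
  have hwn1 : ‖w‖ = 1 := Complex.norm_eq_one_of_pow_eq_one hwn hn0
  have hc : 0 < ‖w - 1‖ := norm_pos_iff.2 (sub_ne_zero.2 hw1)
  obtain ⟨B, hB⟩ : ∃ B : ℝ, B = 1 + 2 / ‖a‖ + 3 / 2 * ‖a‖ + 3 * ‖a‖ / ‖w - 1‖ := ⟨_, rfl⟩
  have q1 : 0 < 2 / ‖a‖ := by positivity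
  have q2 : 0 < 3 / 2 * ‖a‖ := by positivity
  have q3 : 0 < 3 * ‖a‖ / ‖w - 1‖ := by positivity
  refine ⟨δ / 2, by positivity, B, by rw [hB]; linarith, ?_⟩
  intro t z y ht hy hyη
  obtain ⟨b, hb⟩ := IsAlgClosed.exists_pow_nat_eq t (n := n) (by omega)
  have hbn : ‖b‖ = y := by
    have h1 : ‖b‖ ^ n = y ^ n := by rw [← norm_pow, hb, ht]
    exact (pow_left_inj₀ (norm_nonneg _) hy.le hn0).1 h1
  have hroot : ∀ b' : ℂ, b' ^ n = t → ‖b'‖ = y → ∃ u ∈ U, Φ u = b' ∧ G u = t ∧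
      ‖u - ζ₀‖ ≤ B * y ∧ y ≤ B * ‖u - ζ₀‖ := by
    intro b' hb' hb'n
    have h1 : b' ∈ ball (0 : ℂ) δ := by
      rw [mem_ball_zero_iff, hb'n]
      linarith
    obtain ⟨u, hu, hub⟩ := hball h1
    rw [hV] at hu
    obtain ⟨hu1, hu2⟩ := hu
    have hu2 : G u = (u - ζ₀) ^ n * h u := hu2
    have h3 := hupper u hu1 ζ₀ hζV
    have h4 := hlower u hu1 ζ₀ hζV
    rw [hub, hΦ0, sub_zero, hb'n] at h3 h4
    refine ⟨u, hu1, hub, ?_, ?_, ?_⟩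
    · rw [hu2, ← hkp u, ← mul_pow, ← hb', ← hub, hΦ]
    · have h5 : ‖u - ζ₀‖ ≤ 2 / ‖a‖ * y := by
        rw [div_mul_eq_mul_div, le_div_iff₀ hpa]
        linarith
      refine h5.trans ?_
      apply mul_le_mul_of_nonneg_right _ hy.le
      rw [hB]
      linarith
    · refine h3.trans ?_
      apply mul_le_mul_of_nonneg_right _ (norm_nonneg _)
      rw [hB]
      linarith
  obtain ⟨u₁, hu₁, e₁, g₁, l₁, m₁⟩ := hroot b hb hbn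
  obtain ⟨u₂, hu₂, e₂, g₂, l₂, m₂⟩ := hroot (b * w) (by rw [mul_pow, hwn, mul_one, hb])
    (by rw [norm_mul, hwn1, mul_one, hbn])
  have hd := hupper u₂ hu₂ u₁ hu₁
  rw [e₁, e₂, show b * w - b = b * (w - 1) by ring, norm_mul, hbn] at hd
  have htri : ‖u₂ - u₁‖ ≤ ‖u₂ - z‖ + ‖u₁ - z‖ := by
    have := norm_sub_le (u₂ - z) (u₁ - z)
    rwa [sub_sub_sub_cancel_right] at this
  have hfin : ∀ u : ℂ, ‖w - 1‖ * y ≤ 3 * ‖a‖ * ‖u - z‖ → y ≤ B * ‖u - z‖ := by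
    intro u hu
    have h1 : y ≤ 3 * ‖a‖ / ‖w - 1‖ * ‖u - z‖ := by
      rw [div_mul_eq_mul_div, le_div_iff₀ hc]
      linarith
    refine h1.trans ?_
    apply mul_le_mul_of_nonneg_right _ (norm_nonneg _)
    rw [hB]
    linarith
  by_cases hcase : ‖w - 1‖ * y ≤ 3 * ‖a‖ * ‖u₁ - z‖
  · exact ⟨u₁, g₁, l₁, m₁, hfin u₁ hcase⟩
  · refine ⟨u₂, g₂, l₂, m₂, hfin u₂ ?_⟩
    push Not at hcase
    have h5 : 3 / 2 * ‖a‖ * ‖u₂ - u₁‖ ≤ 3 / 2 * ‖a‖ * (‖u₂ - z‖ + ‖u₁ - z‖) :=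
      mul_le_mul_of_nonneg_left htri q2.le
    nlinarith

end Pool.Agent.H287.BT207
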